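import Pool.Agent.H97.PRK.Targets

/-!
# MP_e37c09_lc, board PRK, row SJ1: the image of a small set of points of a club
-/

open Ordinal Cardinal Order Set
open scoped ZFSet

universe u

namespace Pool.Agent.H79.PRK

open _root_.HD HD.PRK

/-- SJ1 -/
theorem pf_SJ1 (h : T_JX.{u}) : T_SJ1.{u} := by
  intro δ η θ j K μ ρ F hs E hE
  have hj := hs.emb
  have hK : ℵ₀ < K := by
    have : ω < K.ord := hs.dom.trans hs.dk
    rwa [Cardinal.lt_ord, Ordinal.card_omega0] at this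
  have hex : ∀ ξ : Ordinal.{u}, ∃ ζ : Ordinal.{u}, ξ < K.ord →
      ζ < K.ord ∧ ∃ c ∈ E, Jo j ξ < c ∧ c < Jo j ζ := by
    intro ξ
    by_cases hξ : ξ < K.ord
    · obtain ⟨c, hc1, hc2, hc3⟩ := hE.unb _ (hs.r1 ξ hξ)
      obtain ⟨ζ, hζ1, hζ2⟩ := hs.r2 c hc1
      exact ⟨ζ, fun _ => ⟨hζ1, c, hc3, hc2, hζ2⟩⟩
    · exact ⟨0, fun h => absurd h hξ⟩
  choose g hg using hex
  have hC := HD.All.ve K hs.kreg hK g fun x hx => (hg x hx).1
  refine ⟨{x | 0 < x ∧ ∀ y < x, g y < x}, hC, ?_⟩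
  intro x hx
  have hxK : x ⊆ K.ord.toZFSet := fun z hz => by
    obtain ⟨a, ha, -, -, rfl⟩ := hx.mem z hz
    exact toZFSet_mem_toZFSet_iff.2 ha
  have hxη : x ∈ V_ η := by
    rw [ZFSet.mem_vonNeumann]
    refine (ZFSet.rank_mono hxK).trans_lt ?_
    have := Gd.ord.2 hs.kη
    rwa [ZFSet.mem_vonNeumann] at this
  obtain ⟨g', hg'⟩ := hx.few
  have hJX := h δ η θ j K μ ρ F hs x hxK ⟨g', hg'⟩
  refine ⟨hxη, ?_, ?_, ?_⟩
  · obtain ⟨z, hz⟩ := hx.ne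
    obtain ⟨a, ha, -, -, rfl⟩ := hx.mem z hz
    exact ⟨_, (hJX _).2 ⟨a, hz, rfl⟩⟩
  · intro z hz
    obtain ⟨a, ha, rfl⟩ := (hJX z).1 hz
    obtain ⟨b, hb1, hb2, hb3, hb4⟩ := hx.mem _ ha
    have hab : a = b := toZFSet_injective hb4
    subst hab
    have haη : a < η := hb1.trans hs.kη
    have hgt : ∀ y < a, y < g y := fun y hy => by
      obtain ⟨h3, c, -, hc2, hc3⟩ := hg y (hy.trans hb1)
      exact (hj.lt_iff (hy.trans haη) (h3.trans hs.kη)).1 (hc2.trans hc3)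
    have hlim : IsSuccLimit a := by
      rw [Ordinal.isSuccLimit_iff, Order.isSuccPrelimit_iff_succ_lt]
      exact ⟨hb2.1.ne', fun y hy => (Order.succ_le_of_lt (hgt y hy)).trans_lt (hb2.2 y hy)⟩
    have hreg : a.cof.IsRegular := Cardinal.isRegular_cof hlim
    obtain ⟨h1, h2⟩ := HD.All.xe δ η θ j hj a haη a.cof hreg (hb3.trans_lt hs.mlt) rfl
    refine ⟨Jo j a, hs.r1 a hb1, ?_, ?_, rfl⟩
    · refine hE.cls _ (hs.r1 a hb1) ?_ ?_
      · have := (hj.lt_iff (hb2.1.trans haη) haη).2 hb2.1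
        rwa [hj.Jo_zero] at this
      · intro y hy
        obtain ⟨ξ, hξ1, hξ2⟩ := h1 y hy
        obtain ⟨h3, c, hc1, hc2, hc3⟩ := hg ξ (hξ1.trans hb1)
        exact ⟨c, hc3.trans ((hj.lt_iff (h3.trans hs.kη) haη).2 (hb2.2 ξ hξ1)),
          hξ2.trans hc2, hc1⟩
    · have h3 : (Jo j a).cof.ord = a.cof.ord := h2
      rw [h3]
      exact hb3
  · refine ⟨fun i => Jo j (g' i), fun a ha => ?_⟩
    obtain ⟨b, hb, hab⟩ := (hJX _).1 ha
    obtain ⟨i, hi, hi'⟩ := hg' b hb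
    refine ⟨i, hi, ?_⟩
    change Jo j (g' i) = a
    rw [hi']
    exact (toZFSet_injective hab).symm

end Pool.Agent.H79.PRK
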